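import Pool.Agent.V1178.FH.Main

/-!
# Zero-cycles on K3 surfaces over number fields and self-correspondences through K3 surfaces

Let `P` be a class of surfaces over a field `k`, for example all K3 surfaces over `ℚ̄` or over a
number field, or one K3 surface only. Each of the following conditions is equivalent to the vanishing
of `CH²(S)_0 ⊗ ℚ` for all surfaces `S` in `P` (Bloch-Beilinson, if `P` consists of K3 surfaces):

* for all surfaces `X` the cycles on `X` which come from zero-cycles of degree zero on surfaces in
  `P` contain at most `D` linearly independent ones, `D` independent of `X`;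
* for all surfaces `X` the self-correspondences of `X` which factor through surfaces in `P` commute
  on `CH²(X)_0 ⊗ ℚ`, or satisfy some nonzero multilinear polynomial identity there;
* for all surfaces `X` and self-correspondences `W_0`, `W_1` of `X` which factor through surfaces in
  `P` and satisfy `W_i ∘ W_i = 0`, the automorphisms `1 + W_0`, `1 + W_1` of the Chow motive of `X`
  do not generate freely a free group of automorphisms of `CH²(X)_0 ⊗ ℚ`.
-/

set_option autoImplicit false

open CategoryTheory AlgebraicGeometry

universe u v w

namespace Pool.Agent.Results.MP_9207e0_ag.FreeSubgroupsK3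

open Pool.Agent.H914 Pool.Agent.H914.VarClass Pool.Agent.H914.VarClass.Obj Pool.Agent.W492.BB
  Pool.Agent.TH133 Pool.Agent.V1157.KF Pool.Agent.V1157.RC Pool.Agent.V1178.FH
open Pool.Agent.V1157.CB (NoTrivialCycles)

/-- **Zero-cycles on K3 surfaces.** Let `P` be a class of surfaces with sufficiently general
complete intersections in `S × S` and in the powers of `S` (`HasIntersection` and `HasPower`,
consequences of the theorem of Bertini). The six conditions are equivalent. -/
theorem result {k : Type u} [Field k] {𝒱 : VarClass k} {C : TheoryData.{u, v, 0} 𝒱 ℚ}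
    [IsChowProj C] {K : Type w} [Field K] (H : WeilTheoryData.{u, v, w} C K) [IsWeilProj H]
    (P : 𝒱.Obj → Prop)
    (hI : ∀ S : 𝒱.Obj, P S → S.dim = 2 → HasIntersection C 2 S S)
    (hB : ∀ (S : 𝒱.Obj) (N : ℕ), P S → S.dim = 2 → HasPower C 2 N S) :
    List.TFAE [NoTrivialCycles H P 2 2, ∃ D, AtMost P 2 (homSub H 2) D,
      Commuting P 2 (homSub H 2),
      ∃ (d : ℕ) (c : Equiv.Perm (Fin d) → ℚ), c ≠ 0 ∧ Identity P 2 (homSub H 2) d c,
      NoFreePairs P 2 (homSub H 2), NoFreeLines P 2 (homSub H 2)] :=
  main_stable_all (isStable_homSub H 2 2) hI hB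

end Pool.Agent.Results.MP_9207e0_ag.FreeSubgroupsK3
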