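import Pool.Agent.V11182.GA.Main
import Pool.Agent.V1157.CB.Main

/-!
# Zero-cycles on K3 surfaces: powers, eigenvalues, ranks and group actions of correspondences

Let `P` be a class of surfaces over a field `k`, for example all K3 surfaces over `ℚ̄` or over a
number field, or one K3 surface only. A self-correspondence of degree zero of a surface `X` is called
admissible if it is a linear combination of correspondences which factor through surfaces in `P`. It
is shown that `CH²(S)_0 ⊗ ℚ = 0` for all `S` in `P` (Bloch-Beilinson, if `P` consists of K3 surfaces)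
follows from very weak bounds for the action of a single admissible correspondence on
`CH²(X)_0 ⊗ ℚ`, `X` any surface, and that it is equivalent to the statement that one group `G`, which
may be any group with a nontrivial finite dimensional representation over `ℚ`, for example any
finite group `G ≠ 1`, has no nontrivial actions on `CH²(X)_0 ⊗ ℚ` by operators `1 + W_g`, `W_g`
admissible.
-/

set_option autoImplicit false

open CategoryTheory AlgebraicGeometry

universe u v w

namespace Pool.Agent.Results.MP_9207e0_ag.GroupActionsAndPowers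

open Pool.Agent.H914 Pool.Agent.H914.VarClass Pool.Agent.H914.VarClass.Obj Pool.Agent.W492.BB
  Pool.Agent.W550.Corr Pool.Agent.TH133 Pool.Agent.Y148.BB Pool.Agent.V1157.KF
  Pool.Agent.V1157.CB Pool.Agent.V11182.GA
open Pool.Agent.V1157.RC (act_smul')

/-- The zero-cycles of degree zero on a surface `X` (rational coefficients). -/
def DegZero {k : Type u} [Field k] {𝒱 : VarClass k} (C : TheoryData.{u, v, 0} 𝒱 ℚ) (X : 𝒱.Obj)
    (x : C.A X) : Prop :=
  X.dim = 2 ∧ C.Deg 2 x ∧ HasDegree C x 0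

/-- `CH²(S)_ℚ = ℚ` for all surfaces `S` in the class `P`: it is spanned by a zero-cycle of degree
one. -/
def Conj {k : Type u} [Field k] {𝒱 : VarClass k} (C : TheoryData.{u, v, 0} 𝒱 ℚ)
    (P : 𝒱.Obj → Prop) : Prop :=
  ∀ S : 𝒱.Obj, P S → S.dim = 2 → ∃ o : C.A S, C.Deg 2 o ∧ HasDegree C o 1 ∧
    ∀ z : C.A S, C.Deg 2 z → ∃ q : ℚ, z = q • o

/-- The admissible self-correspondences: the linear combinations of correspondences which factor
through surfaces in the class `P`. -/
def Adm {k : Type u} [Field k] {𝒱 : VarClass k} (C : TheoryData.{u, v, 0} 𝒱 ℚ)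
    (P : 𝒱.Obj → Prop) (X : 𝒱.Obj) (W : C.A (X.prod X)) : Prop :=
  W ∈ Submodule.span ℚ {W' : C.A (X.prod X) | FactorsThrough C P 2 X W'}

section proofs

variable {k : Type u} [Field k] {𝒱 : VarClass k} {C : TheoryData.{u, v, 0} 𝒱 ℚ}
  [hC : IsChowProj C] {K : Type w} [Field K] (H : WeilTheoryData.{u, v, w} C K)
  [hH : IsWeilProj H] {X : 𝒱.Obj}

include hC hH

/-- Zero-cycles of degree zero are homologically trivial. -/
theorem cl_zero {z : C.A X} (hz : C.Deg X.dim z) (h : HasDegree C z 0) : H.cl z = 0 := by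
  obtain ⟨o, ho, ho1, -⟩ := hC.exists_deg_one X
  refine tr_mul_eq_zero H _ (H.cl_mem hz) ?_
  have h1 : H.tr X (H.push (fst X X) (H.pull (fst X X) (H.cl z) * H.pull (snd X X) (H.cl o))) =
      H.tr X (H.cl z) := by
    rw [H.proj_left, ← H.cl_pull, ← H.cl_push]
    have h2 : C.push (fst X X) (C.pull (snd X X) o) = 1 := ho1 X
    rw [h2, map_one, mul_one]
  have h3 : H.tr X (H.push (snd X X) (H.pull (fst X X) (H.cl z) * H.pull (snd X X) (H.cl o))) =
      0 := by
    rw [H.proj_right, ← H.cl_pull, ← H.cl_push, (h X).1, zero_smul, map_zero, zero_mul, map_zero]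
  rw [← h1, hH.isOriented.tr_push, ← hH.isOriented.tr_push (snd X X)]
  exact h3

theorem degZero_iff {z : C.A X} : DegZero C X z ↔ X.dim = 2 ∧ HomTriv H 2 z := by
  constructor
  · rintro ⟨h1, h2, h3⟩
    exact ⟨h1, h2, cl_zero H (gr_congr (by rw [h1]; norm_num) h2) h3⟩
  · rintro ⟨h1, h2, h3⟩
    exact ⟨h1, h2, hasDegree_zero_of_cl H (gr_congr (by rw [h1]) h2) h3⟩

theorem conj_iff {P : 𝒱.Obj → Prop} : Conj C P ↔ NoTrivialCycles H P 2 2 := by
  constructor
  · intro h S y hP hS hy
    obtain ⟨o, ho, ho1, hz⟩ := h S hP hS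
    obtain ⟨q, rfl⟩ := hz y hy.1
    have h1 := hasDegree_zero_of_cl H (gr_congr (by rw [hS]) hy.1) hy.2
    have h2 : HasDegree C (q • o) q := by
      intro Y
      rw [map_smul, map_smul, map_smul, map_smul, (ho1 Y).1, (ho1 Y).2, one_smul]
      exact ⟨rfl, rfl⟩
    rw [hasDegree_unique H h2 h1, zero_smul]
  · intro h S hP hS
    obtain ⟨o, ho, ho1, ho2⟩ := hC.exists_deg_one S
    have hd : HasDegree C o 1 := by
      intro Y
      rw [one_smul]
      exact ⟨ho2 Y, ho1 Y⟩
    refine ⟨o, gr_congr (by rw [hS]; norm_num) ho, hd, fun z hz => ?_⟩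
    have hz' : z ∈ C.gr S S.dim := gr_congr (by rw [hS]; norm_num) hz
    obtain ⟨q, hq⟩ := exists_hasDegree hz'
    refine ⟨q, sub_eq_zero.1 (h S _ hP hS ?_)⟩
    have h1 : C.Deg S.dim (z - q • o) := Submodule.sub_mem _ hz' (Submodule.smul_mem _ q ho)
    refine ⟨gr_congr (by rw [hS]) h1, cl_zero H h1 fun Y => ?_⟩
    rw [map_sub, map_sub, map_sub, map_sub, map_smul, map_smul, map_smul, map_smul, (hq Y).1,
      (hq Y).2, (hd Y).1, (hd Y).2, one_smul, sub_self, zero_smul]
    exact ⟨rfl, rfl⟩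

end proofs

theorem result {k : Type u} [Field k] {𝒱 : VarClass k} {C : TheoryData.{u, v, 0} 𝒱 ℚ}
    [IsChowProj C] {K : Type w} [Field K] {H : WeilTheoryData.{u, v, w} C K} [IsWeilProj H]
    (P : 𝒱.Obj → Prop) (hB : ∀ (S : 𝒱.Obj) (N : ℕ), P S → S.dim = 2 → HasPower C 2 N S) :
    (∀ D : ℕ, 1 ≤ D → (Conj C P ↔ ShortOrbits C (DegZero C) (Adm C P) 2 D)) ∧
    (∀ D : ℕ, 1 ≤ D → (Conj C P ↔ NoIndex C (DegZero C) (Adm C P) 2 D)) ∧
    (∀ D : ℕ, (Conj C P ↔ SmallRank C (DegZero C) (Adm C P) 2 D)) ∧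
    (∀ D : ℕ, 1 ≤ D →
      (Conj C P ↔ FewEigenvalues C (DegZero C) (Adm C P) 2 D)) ∧
    (∀ (G : Type) [Monoid G] (N : ℕ) (ρ : G →* Matrix (Fin N) (Fin N) ℚ) (g : G), ρ g ≠ 1 →
      (Conj C P ↔ TrivialActions C (DegZero C) (Adm C P) 2 G)) ∧
    (∀ (G : Type) [Group G] [Finite G] [Nontrivial G],
      Conj C P ↔ TrivialActions C (DegZero C) (Adm C P) 2 G) := by
  simp only [conj_iff H]
  refine main ?_ ?_
  · intro h X hX W hW α hα
    unfold Adm at hW
    induction hW using Submodule.span_induction with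
    | mem W' hW' =>
      obtain ⟨Y, Γ, Δ, hP, hY, hΓ, hΔ, h1⟩ := hW'
      rw [h1, C.act_comp, h Y _ hP hY (hom_act hX hΓ ((degZero_iff H).1 hα).2), C.act_map_zero]
    | zero => exact C.act_zero _
    | add x y _ _ hx hy =>
      have h2 : x + y = x - (-1 : ℚ) • y := by rw [neg_one_smul, sub_neg_eq_add]
      rw [h2, C.act_sub, act_smul', hx, hy, smul_zero, sub_zero]
    | smul c x _ hx => rw [act_smul', hx, smul_zero]
  · intro h
    unfold NoTrivialCycles at h
    push Not at h
    obtain ⟨S, x, hPS, hS, hx, hx0⟩ := h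
    refine units_of (H := H) (m := 2) (fun h => ((degZero_iff H).1 h).2) ?_ ?_ hS
      ((degZero_iff H).2 ⟨hS, hx⟩) hx0 (fun N => hB S N hPS hS) ?_
    · intro X Y f y hX hY hy
      exact (degZero_iff H).2 ⟨hX, HomTriv.pull ((degZero_iff H).1 hy).2⟩
    · intro X Y f x hX hY hx
      exact (degZero_iff H).2 ⟨hY, HomTriv.push hX hY ((degZero_iff H).1 hx).2⟩
    · intro V ι _ p c hV
      exact Submodule.sum_mem _ fun i _ => Submodule.sum_mem _ fun j _ =>
        Submodule.smul_mem _ _ (Submodule.subset_span (factors_mt hS hPS _ _))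

end Pool.Agent.Results.MP_9207e0_ag.GroupActionsAndPowers
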